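import Pool.Agent.U624.Conv.Id

set_option autoImplicit false

/-! # Termwise divisibility -/

open Finset Nat

namespace Pool.Agent.U624.Conv

/-- the basic inequality between floors -/
lemma key (q k m : ℕ) (hq : 2 ≤ q) (hm : m ≤ k) (hk : 1 ≤ k) :
    (2 * (k + m) - 1) / q + 3 * (k + m) / q + 3 * k / q + k / q + k / q + m / q + (k - m) / q ≤
    6 * k / q + (k + m) / q + 2 * (k + m) / q + (2 * (k + m) - 2) / q +
      (if q = 3 ∧ 1 ≤ m then 1 else 0) := by
  obtain ⟨a, x, hx, rfl⟩ : ∃ a x, x < q ∧ k = q * a + x :=
    ⟨k / q, k % q, Nat.mod_lt _ (by omega), (Nat.div_add_mod k q).symm⟩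
  obtain ⟨b, y, hy, rfl⟩ : ∃ b y, y < q ∧ m = q * b + y :=
    ⟨m / q, m % q, Nat.mod_lt _ (by omega), (Nat.div_add_mod m q).symm⟩
  have q0 : 0 < q := by omega
  -- all floors
  have E3n : 3 * (q * a + x + (q * b + y)) / q = 3 * a + 3 * b + 3 * (x + y) / q := by
    rw [show 3 * (q * a + x + (q * b + y)) = 3 * (x + y) + q * (3 * a + 3 * b) by ring,
      Nat.add_mul_div_left _ _ q0]; ring
  have E3k : 3 * (q * a + x) / q = 3 * a + 3 * x / q := by
    rw [show 3 * (q * a + x) = 3 * x + q * (3 * a) by ring, Nat.add_mul_div_left _ _ q0]; ring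
  have Ek : (q * a + x) / q = a := by
    rw [show q * a + x = x + q * a by ring, Nat.add_mul_div_left _ _ q0, Nat.div_eq_of_lt hx]; ring
  have Em : (q * b + y) / q = b := by
    rw [show q * b + y = y + q * b by ring, Nat.add_mul_div_left _ _ q0, Nat.div_eq_of_lt hy]; ring
  have E6 : 6 * (q * a + x) / q = 6 * a + 6 * x / q := by
    rw [show 6 * (q * a + x) = 6 * x + q * (6 * a) by ring, Nat.add_mul_div_left _ _ q0]; ring
  have E1 : (q * a + x + (q * b + y)) / q = a + b + (x + y) / q := by
    rw [show q * a + x + (q * b + y) = (x + y) + q * (a + b) by ring,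
      Nat.add_mul_div_left _ _ q0]; ring
  have E2 : 2 * (q * a + x + (q * b + y)) / q = 2 * a + 2 * b + 2 * (x + y) / q := by
    rw [show 2 * (q * a + x + (q * b + y)) = 2 * (x + y) + q * (2 * a + 2 * b) by ring,
      Nat.add_mul_div_left _ _ q0]; ring
  have Ekm : (q * a + x - (q * b + y)) / q + (if x < y then 1 else 0) + b = a := by
    rcases Nat.lt_or_ge x y with h | h
    · rw [if_pos h]
      have hab : b < a := by
        by_contra hcon
        have h1 : q * a ≤ q * b := Nat.mul_le_mul_left q (by omega)
        omega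
      obtain ⟨d, rfl⟩ := Nat.exists_eq_add_of_lt hab
      have : q * (b + d + 1) + x - (q * b + y) = (q + x - y) + q * d := by
        have e : q * (b + d + 1) = q * b + q * d + q := by ring
        omega
      rw [this, Nat.add_mul_div_left _ _ q0, Nat.div_eq_of_lt (by omega)]
      omega
    · rw [if_neg (by omega)]
      have hab : b ≤ a := by
        by_contra hcon
        have h1 : q * (a + 1) ≤ q * b := Nat.mul_le_mul_left q (by omega)
        have e : q * (a + 1) = q * a + q := by ring
        omega
      obtain ⟨d, rfl⟩ := Nat.exists_eq_add_of_le hab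
      have : q * (b + d) + x - (q * b + y) = (x - y) + q * d := by
        have e : q * (b + d) = q * b + q * d := by ring
        omega
      rw [this, Nat.add_mul_div_left _ _ q0, Nat.div_eq_of_lt (by omega)]
      omega
  -- elementary facts about the small floors
  have h36 : 2 * (3 * x / q) ≤ 6 * x / q := by
    have := Nat.mul_div_le_mul_div_assoc 2 (3 * x) q
    have e : 2 * (3 * x) = 6 * x := by ring
    rw [e] at this; exact this
  have hs : 3 * (x + y) / q ≤ (x + y) / q + 2 * (x + y) / q + 1 := by
    have h1 : 3 * (x + y) < q * ((x + y) / q + 2 * (x + y) / q + 2) := by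
      have a1 := Nat.lt_mul_div_succ (x + y) q0
      have a2 := Nat.lt_mul_div_succ (2 * (x + y)) q0
      have e : q * ((x + y) / q + 2 * (x + y) / q + 2) =
        q * ((x + y) / q + 1) + q * (2 * (x + y) / q + 1) := by ring
      rw [e]; omega
    have := Nat.div_lt_of_lt_mul h1
    omega
  have hbig : y ≤ x → q ≤ 6 * x → 3 * x / q + 1 ≤ 6 * x / q := by
    intro _ h
    have h1 : 1 ≤ 6 * x / q := (Nat.one_le_div_iff q0).2 h
    omega
  have hsmall : y ≤ x → 6 * x < q → 3 * (x + y) / q = 0 := by
    intro h1 h2
    exact Nat.div_eq_of_lt (by omega)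
  have base : 3 * (x + y) / q + 3 * x / q ≤
      6 * x / q + (x + y) / q + 2 * (x + y) / q + (if x < y then 1 else 0) := by
    generalize 3 * x / q = t3 at *
    generalize 6 * x / q = t6 at *
    generalize 3 * (x + y) / q = s3 at *
    generalize 2 * (x + y) / q = s2 at *
    generalize (x + y) / q = s1 at *
    rcases Nat.lt_or_ge x y with h | h
    · rw [if_pos h]; omega
    · rw [if_neg (by omega)]
      rcases Nat.lt_or_ge (6 * x) q with h2 | h2
      · have := hsmall h h2; omega
      · have := hbig h h2; omega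
  -- the last pair
  have hn2 : 2 * (q * a + x + (q * b + y)) - 1 = (2 * (q * a + x + (q * b + y)) - 2) + 1 := by omega
  rw [hn2, Nat.succ_div, E3n, E3k, Ek, Em, E6, E1, E2]
  by_cases hd : q ∣ 2 * (q * a + x + (q * b + y)) - 2 + 1
  · rw [if_pos hd]
    rw [← hn2] at hd
    have hd2 : (q : ℤ) ∣ 2 * ((x : ℤ) + y) - 1 := by
      have h1 : ((q : ℤ)) ∣ ((2 * (q * a + x + (q * b + y)) - 1 : ℕ) : ℤ) := by exact_mod_cast hd
      have h2 : ((2 * (q * a + x + (q * b + y)) - 1 : ℕ) : ℤ) =
        (2 * ((x : ℤ) + y) - 1) + q * (2 * a + 2 * b) := by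
        have : 1 ≤ 2 * (q * a + x + (q * b + y)) := by omega
        push_cast [this]; ring
      rw [h2] at h1
      exact (dvd_add_left (Dvd.intro _ rfl)).1 h1
    obtain ⟨d, hd3⟩ := hd2
    have hdpos : 0 < d := by
      by_contra hcon
      have : (q : ℤ) * d ≤ 0 := by
        have hq' : (0 : ℤ) ≤ q := by positivity
        nlinarith
      -- then 2 (x+y) ≤ 1 so x = y = 0
      have hxy : x = 0 ∧ y = 0 := by omega
      obtain ⟨rfl, rfl⟩ := hxy
      have h5 : (q : ℤ) ∣ 1 := by
        have : (q : ℤ) ∣ -1 := ⟨d, by push_cast at hd3; linarith⟩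
        exact (dvd_neg).1 this
      have := Int.le_of_dvd (by norm_num) h5
      omega
    have hd4 : d < 4 := by
      by_contra hcon
      have : (q : ℤ) * 4 ≤ q * d := by
        have hq' : (0 : ℤ) ≤ q := by positivity
        nlinarith
      omega
    rcases Nat.lt_or_ge 3 q with hq3 | hq3
    · -- q > 3
      have hs' : 3 * (x + y) / q ≤ (x + y) / q + 2 * (x + y) / q := by
        interval_cases d
        · have h1 : 2 * (x + y) = q + 1 := by omega
          have h2 : 3 * (x + y) / q < 2 := Nat.div_lt_of_lt_mul (by omega)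
          have h3 : 1 ≤ 2 * (x + y) / q := (Nat.one_le_div_iff q0).2 (by omega)
          exact le_trans (Nat.lt_succ_iff.1 h2) (le_trans h3 (Nat.le_add_left _ _))
        · omega
        · have h1 : 2 * (x + y) = 3 * q + 1 := by omega
          have h2 : 3 * (x + y) / q < 5 := Nat.div_lt_of_lt_mul (by omega)
          have h3 : 3 ≤ 2 * (x + y) / q := (Nat.le_div_iff_mul_le q0).2 (by omega)
          have h4 : 1 ≤ (x + y) / q := (Nat.one_le_div_iff q0).2 (by omega)
          omega
      have hz : q + 1 ≤ 2 * (x + y) := by interval_cases d <;> omega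
      have : 3 * (x + y) / q + 3 * x / q + 1 ≤
          6 * x / q + (x + y) / q + 2 * (x + y) / q + (if x < y then 1 else 0) := by
        clear hs hsmall base
        generalize 3 * x / q = t3 at *
        generalize 6 * x / q = t6 at *
        generalize 3 * (x + y) / q = s3 at *
        generalize 2 * (x + y) / q = s2 at *
        generalize (x + y) / q = s1 at *
        rcases Nat.lt_or_ge x y with h | h
        · rw [if_pos h]; omega
        · rw [if_neg (by omega)]
          have := hbig h (by omega)
          omega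
      omega
    · -- q ≤ 3
      have hq3' : q = 3 := by
        have : q = 2 ∨ q = 3 := by omega
        rcases this with rfl | rfl
        · exfalso; interval_cases d <;> omega
        · rfl
      subst hq3'
      by_cases hm1 : 1 ≤ 3 * b + y
      · rw [if_pos ⟨rfl, hm1⟩]
        omega
      · have : b = 0 ∧ y = 0 := by omega
        obtain ⟨rfl, rfl⟩ := this
        have hx2 : x = 2 := by interval_cases d <;> omega
        subst hx2
        rw [if_neg (by omega : ¬ (2 : ℕ) < 0)] at Ekm
        omega
  · rw [if_neg hd]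
    omega

end Pool.Agent.U624.Conv
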