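import Pool.Agent.U624.Conv.Div

set_option autoImplicit false

/-! # The divisibility of the self-convolution -/

open Finset Nat

namespace Pool.Agent.U624.Conv

/-- the exponent of `2` in `n!` -/
noncomputable def v (n : ℕ) : ℕ := padicValNat 2 n !

lemma v_double (n : ℕ) : v (2 * n) = v n + n := by
  haveI : Fact (Nat.Prime 2) := ⟨Nat.prime_two⟩
  exact padicValNat_factorial_mul (p := 2) n

lemma v_double_add (n : ℕ) : v (2 * n + 1) = v n + n := by
  haveI : Fact (Nat.Prime 2) := ⟨Nat.prime_two⟩
  rw [← v_double]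
  exact padicValNat_factorial_mul_add (p := 2) (n := 1) n (by norm_num)

lemma v_zero : v 0 = 0 := by simp [v]

lemma v_lt (n : ℕ) (hn : 1 ≤ n) : v n + 1 ≤ n := by
  induction n using Nat.strong_induction_on with
  | _ n ih =>
    rcases Nat.even_or_odd' n with ⟨j, rfl | rfl⟩
    · rw [v_double]
      have := ih j (by omega) (by omega)
      omega
    · rw [v_double_add]
      rcases Nat.eq_zero_or_pos j with rfl | hj
      · rw [v_zero]
      · have := ih j (by omega) hj
        omega

lemma v_le (n : ℕ) : v n ≤ n := by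
  rcases Nat.eq_zero_or_pos n with rfl | h
  · rw [v_zero]
  · have := v_lt n h; omega

lemma v_add (i j : ℕ) : v i + v j ≤ v (i + j) := by
  haveI : Fact (Nat.Prime 2) := ⟨Nat.prime_two⟩
  unfold v
  rw [← padicValNat.mul (Nat.factorial_ne_zero i) (Nat.factorial_ne_zero j)]
  exact padicValNat_dvd_le_of_dvd i j
where
  padicValNat_dvd_le_of_dvd (i j : ℕ) : padicValNat 2 (i ! * j !) ≤ padicValNat 2 (i + j)! := by
    haveI : Fact (Nat.Prime 2) := ⟨Nat.prime_two⟩
    have h := Nat.factorial_mul_factorial_dvd_factorial_add i j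
    exact (padicValNat_dvd_iff_le (Nat.factorial_ne_zero _)).1 (dvd_trans pow_padicValNat_dvd h)

lemma v_three (n : ℕ) (hn : 1 ≤ n) : 3 + v (3 * n) + v n ≤ 4 * n := by
  induction n using Nat.strong_induction_on with
  | _ n ih =>
    rcases Nat.even_or_odd' n with ⟨j, rfl | rfl⟩
    · have e : 3 * (2 * j) = 2 * (3 * j) := by ring
      rw [e, v_double, v_double]
      have := ih j (by omega) (by omega)
      omega
    · have e : 3 * (2 * j + 1) = 2 * (3 * j + 1) + 1 := by ring
      rw [e, v_double_add, v_double_add]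
      rcases Nat.eq_zero_or_pos j with rfl | hj
      · have := v_double_add 0
        simp only [mul_zero, zero_add, v_zero, add_zero] at *
        omega
      · have h1 := v_lt j hj
        have h2 := v_lt (3 * j + 1) (by omega)
        omega

/-- the product of the factorials in the denominator -/
def A (k m : ℕ) : ℕ := 8 * ((2 * (k + m) - 1)! * ((3 * (k + m))! * ((3 * k)! *
  (k ! * (k ! * (m ! * (k - m)!))))))

/-- the product of the factorials in the numerator -/
def B (k m : ℕ) : ℕ := 432 ^ m * ((6 * k)! * ((k + m)! * ((2 * (k + m))! * (2 * (k + m) - 2)!)))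

lemma A_ne (k m : ℕ) : A k m ≠ 0 := by
  unfold A; positivity

lemma B_ne (k m : ℕ) : B k m ≠ 0 := by
  unfold B; positivity

lemma two_part (k m : ℕ) (hm : m ≤ k) (hk : 1 ≤ k) :
    3 + v (3 * (k + m)) + v (3 * k) + v k + v k + v m + v (k - m) ≤
    4 * m + v (6 * k) + v (k + m) + v (2 * (k + m)) := by
  have e : 6 * k = 2 * (3 * k) := by ring
  rw [e, v_double, v_double]
  have h1 := v_add k m
  have h2 := v_le (k - m)
  rcases Nat.eq_zero_or_pos m with rfl | hm1
  · have := v_three k hk
    simp only [add_zero, Nat.sub_zero, v_zero] at *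
    omega
  · have h3 := v_lt (3 * (k + m)) (by omega)
    omega

lemma fact_two (k m : ℕ) (hm : m ≤ k) (hk : 1 ≤ k) :
    (A k m).factorization 2 ≤ (B k m).factorization 2 := by
  haveI : Fact (Nat.Prime 2) := ⟨Nat.prime_two⟩
  have h8 : padicValNat 2 8 = 3 := by
    rw [show (8 : ℕ) = 2 ^ 3 by norm_num]; exact padicValNat.prime_pow 3
  have h432 : padicValNat 2 (432 ^ m) = 4 * m := by
    rw [padicValNat.pow, show (432 : ℕ) = 2 ^ 4 * 27 by norm_num,
      padicValNat.mul (by norm_num) (by norm_num), padicValNat.prime_pow,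
      padicValNat.eq_zero_of_not_dvd (by norm_num : ¬ 2 ∣ 27)]
    ring
  have f (n : ℕ) : n ! ≠ 0 := Nat.factorial_ne_zero n
  rw [Nat.factorization_def _ Nat.prime_two, Nat.factorization_def _ Nat.prime_two]
  unfold A B
  rw [padicValNat.mul (by norm_num) (by positivity), padicValNat.mul (f _) (by positivity),
    padicValNat.mul (f _) (by positivity), padicValNat.mul (f _) (by positivity),
    padicValNat.mul (f _) (by positivity), padicValNat.mul (f _) (by positivity),
    padicValNat.mul (f _) (by positivity), padicValNat.mul (by positivity) (by positivity),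
    padicValNat.mul (f _) (by positivity), padicValNat.mul (f _) (by positivity),
    padicValNat.mul (f _) (by positivity), h8, h432]
  have h := two_part k m hm hk
  have h1 : v (2 * (k + m) - 1) = v (2 * (k + m) - 2) := by
    have e1 : 2 * (k + m) - 1 = 2 * (k + m - 1) + 1 := by omega
    have e2 : 2 * (k + m) - 2 = 2 * (k + m - 1) := by omega
    rw [e1, e2, v_double, v_double_add]
  unfold v at h h1
  omega

lemma fact_odd (k m p : ℕ) (hm : m ≤ k) (hk : 1 ≤ k) (hp : p.Prime) (hp2 : p ≠ 2) :
    (A k m).factorization p ≤ (B k m).factorization p := by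
  haveI : Fact p.Prime := ⟨hp⟩
  have hp2' : 2 ≤ p := hp.two_le
  have h8 : padicValNat p 8 = 0 := by
    apply padicValNat.eq_zero_of_not_dvd
    intro h
    have : p ∣ 2 ^ 3 := by norm_num; exact h
    exact hp2 ((Nat.prime_dvd_prime_iff_eq hp Nat.prime_two).1 (hp.dvd_of_dvd_pow this))
  have h432 : (if p = 3 then 3 * m else 0) ≤ padicValNat p (432 ^ m) := by
    split_ifs with h3
    · subst h3
      rw [padicValNat.pow, show (432 : ℕ) = 3 ^ 3 * 16 by norm_num,
        padicValNat.mul (by norm_num) (by norm_num), padicValNat.prime_pow]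
      nlinarith [Nat.zero_le (padicValNat 3 16 * m)]
    · exact Nat.zero_le _
  have f (n : ℕ) : n ! ≠ 0 := Nat.factorial_ne_zero n
  rw [Nat.factorization_def _ hp, Nat.factorization_def _ hp]
  unfold A B
  rw [padicValNat.mul (by norm_num) (by positivity), padicValNat.mul (f _) (by positivity),
    padicValNat.mul (f _) (by positivity), padicValNat.mul (f _) (by positivity),
    padicValNat.mul (f _) (by positivity), padicValNat.mul (f _) (by positivity),
    padicValNat.mul (f _) (by positivity), padicValNat.mul (by positivity) (by positivity),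
    padicValNat.mul (f _) (by positivity), padicValNat.mul (f _) (by positivity),
    padicValNat.mul (f _) (by positivity), h8]
  -- a common bound for the sums
  set b := Nat.log p (6 * (k + m)) + 1 with hb
  have L (n : ℕ) (hn : n ≤ 6 * (k + m)) : padicValNat p n ! = ∑ i ∈ Ico 1 b, n / p ^ i := by
    apply padicValNat_factorial
    have := Nat.log_mono_right (b := p) hn
    omega
  rw [L _ (by omega : 2 * (k + m) - 1 ≤ _), L _ (by omega : 3 * (k + m) ≤ _),
    L _ (by omega : 3 * k ≤ _), L _ (by omega : k ≤ _), L _ (by omega : m ≤ _),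
    L _ (by omega : k - m ≤ _), L _ (by omega : 6 * k ≤ _), L _ (by omega : k + m ≤ _),
    L _ (by omega : 2 * (k + m) ≤ _), L _ (by omega : 2 * (k + m) - 2 ≤ _)]
  have hsum : ∑ i ∈ Ico 1 b, ((2 * (k + m) - 1) / p ^ i + 3 * (k + m) / p ^ i + 3 * k / p ^ i +
      k / p ^ i + k / p ^ i + m / p ^ i + (k - m) / p ^ i) ≤
      ∑ i ∈ Ico 1 b, (6 * k / p ^ i + (k + m) / p ^ i + 2 * (k + m) / p ^ i +
        (2 * (k + m) - 2) / p ^ i + (if p ^ i = 3 ∧ 1 ≤ m then 1 else 0)) := by
    apply Finset.sum_le_sum
    intro i hi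
    have hi1 : 1 ≤ i := (Finset.mem_Ico.1 hi).1
    have hq : 2 ≤ p ^ i := le_trans hp2' (Nat.le_self_pow (by omega) p)
    exact key (p ^ i) k m hq hm hk
  have hextra : ∑ i ∈ Ico 1 b, (if p ^ i = 3 ∧ 1 ≤ m then 1 else 0) ≤
      (if p = 3 then 3 * m else 0) := by
    rw [Finset.sum_boole]
    split_ifs with h3
    · subst h3
      have : (Finset.filter (fun i => 3 ^ i = 3 ∧ 1 ≤ m) (Ico 1 b)) ⊆
          (if 1 ≤ m then {1} else ∅) := by
        intro i hi
        simp only [Finset.mem_filter, Finset.mem_Ico] at hi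
        rw [if_pos hi.2.2]
        have : (3 : ℕ) ^ i = 3 ^ 1 := by rw [hi.2.1]; norm_num
        have := Nat.pow_right_injective (le_refl 2 |>.trans (by norm_num : 2 ≤ 3)) this
        simpa using this
      have h := Finset.card_le_card this
      split_ifs at h with hm1
      · simp only [Finset.card_singleton] at h
        simp only [Nat.cast_id]
        omega
      · simp only [Finset.card_empty] at h
        simp only [Nat.cast_id]
        omega
    · have : (Finset.filter (fun i => p ^ i = 3 ∧ 1 ≤ m) (Ico 1 b)) = ∅ := by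
        apply Finset.filter_eq_empty_iff.2
        intro i hi hcon
        apply h3
        have hi1 : 1 ≤ i := (Finset.mem_Ico.1 hi).1
        have : p ∣ 3 := by rw [← hcon.1]; exact dvd_pow_self p (by omega)
        exact (Nat.prime_dvd_prime_iff_eq hp Nat.prime_three).1 this
      rw [this]; simp
  simp only [Finset.sum_add_distrib] at hsum
  omega

lemma A_dvd_B (k m : ℕ) (hm : m ≤ k) (hk : 1 ≤ k) : A k m ∣ B k m := by
  rw [← Nat.factorization_prime_le_iff_dvd (A_ne k m) (B_ne k m)]
  intro p hp
  by_cases h : p = 2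
  · subst h; exact fact_two k m hm hk
  · exact fact_odd k m p hm hk hp h

lemma term_dvd (k m : ℕ) (hm : m ≤ k) (hk : 1 ≤ k) :
    8 * (2 * (k + m) - 1) * (3 * (k + m)).choose (k + m) ∣ c k * k.choose m * 432 ^ m := by
  set X := (k + m)! * ((2 * (k + m))! * ((2 * (k + m) - 2)! * ((3 * k)! *
    (k ! * (k ! * (m ! * (k - m)!)))))) with hX
  have hXpos : 0 < X := by positivity
  apply Nat.dvd_of_mul_dvd_mul_right hXpos
  have h1 : (3 * (k + m)).choose (k + m) * (k + m)! * (2 * (k + m))! = (3 * (k + m))! := by
    have := Nat.choose_mul_factorial_mul_factorial (n := 3 * (k + m)) (k := k + m) (by omega)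
    rw [show 3 * (k + m) - (k + m) = 2 * (k + m) by omega] at this
    exact this
  have h2 : (2 * (k + m) - 1) * (2 * (k + m) - 2)! = (2 * (k + m) - 1)! := by
    have e : 2 * (k + m) - 1 = (2 * (k + m) - 2) + 1 := by omega
    rw [e, Nat.factorial_succ]
  have h3 := a_fact k
  have h4 : (2 * k).choose k * k ! * k ! = (2 * k)! := by
    have := Nat.choose_mul_factorial_mul_factorial (n := 2 * k) (k := k) (by omega)
    rw [show 2 * k - k = k by omega] at this
    exact this
  have h5 := Nat.choose_mul_factorial_mul_factorial hm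
  have eA : 8 * (2 * (k + m) - 1) * (3 * (k + m)).choose (k + m) * X = A k m := by
    unfold A
    rw [← h1, ← h2, hX]
    ring
  have eB : c k * k.choose m * 432 ^ m * X = B k m := by
    unfold B
    rw [← h3, ← h4, c_eq, hX]
    calc a k * (2 * k).choose k * k.choose m * 432 ^ m * ((k + m)! * ((2 * (k + m))! *
          ((2 * (k + m) - 2)! * ((3 * k)! * (k ! * (k ! * (m ! * (k - m)!)))))))
        = 432 ^ m * (a k * ((3 * k)! * ((2 * k).choose k * k ! * k ! *
          (k.choose m * m ! * (k - m)!))) * ((k + m)! * ((2 * (k + m))! *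
            (2 * (k + m) - 2)!))) := by ring
      _ = _ := by rw [h5]
  rw [eA, eB]
  exact A_dvd_B k m hm hk

/-- **The divisibility.** -/
theorem main (n : ℕ) (hn : 0 < n) : 8 * (2 * n - 1) * (3 * n).choose n ∣ S n := by
  have h : (((8 * (2 * n - 1) * (3 * n).choose n : ℕ) : ℤ)) ∣ (S n : ℤ) := by
    rw [S_eq_R]
    unfold R
    apply Finset.dvd_sum
    intro k hk
    have hkn : k ≤ n := by
      have := Finset.mem_range.1 hk; omega
    rw [f_le hkn]
    rcases Nat.lt_or_ge k (n - k) with h1 | h1
    · rw [Nat.choose_eq_zero_of_lt h1]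
      simp
    · obtain ⟨m, rfl⟩ := Nat.exists_eq_add_of_le hkn
      have e : k + m - k = m := by omega
      rw [e] at h1 ⊢
      have h2 := term_dvd k m h1 (by omega)
      have h3 : (((8 * (2 * (k + m) - 1) * (3 * (k + m)).choose (k + m) : ℕ) : ℤ)) ∣
          ((c k * k.choose m * 432 ^ m : ℕ) : ℤ) := by exact_mod_cast h2
      have e2 : (c k : ℤ) * (k.choose m) * (-432) ^ m =
          ((c k * k.choose m * 432 ^ m : ℕ) : ℤ) * (-1) ^ m := by
        have : (-432 : ℤ) ^ m = 432 ^ m * (-1) ^ m := by
          rw [← mul_pow]; norm_num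
        rw [this]; push_cast; ring
      rw [e2]
      exact Dvd.dvd.mul_right h3 _
  exact_mod_cast h

end Pool.Agent.U624.Conv
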