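import Mathlib

set_option autoImplicit false

/-! # The self-convolution of `C(6k,3k) C(3k,k)`: a Clausen type identity -/

open Finset Nat

namespace Pool.Agent.U624.Conv

/-- `a k = C(6k,3k) C(3k,k)` -/
def a (k : ℕ) : ℕ := (6 * k).choose (3 * k) * (3 * k).choose k

/-- `c k = C(6k,3k) C(3k,k) C(2k,k)` -/
def c (k : ℕ) : ℕ := (6 * k).choose (3 * k) * (3 * k).choose k * (2 * k).choose k

lemma a_fact (k : ℕ) : a k * ((3 * k)! * ((2 * k)! * k !)) = (6 * k)! := by
  have h1 := Nat.choose_mul_factorial_mul_factorial (n := 6 * k) (k := 3 * k) (by omega)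
  have h2 := Nat.choose_mul_factorial_mul_factorial (n := 3 * k) (k := k) (by omega)
  have e1 : 6 * k - 3 * k = 3 * k := by omega
  have e2 : 3 * k - k = 2 * k := by omega
  rw [e1] at h1
  rw [e2] at h2
  unfold a
  calc (6 * k).choose (3 * k) * (3 * k).choose k * ((3 * k)! * ((2 * k)! * k !))
      = (6 * k).choose (3 * k) * (3 * k)! * ((3 * k).choose k * k ! * (2 * k)!) := by ring
    _ = (6 * k)! := by rw [h2, h1]

lemma a_succ (k : ℕ) : (k + 1) ^ 2 * a (k + 1) = 12 * (6 * k + 1) * (6 * k + 5) * a k := by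
  have h0 := a_fact k
  have h1 := a_fact (k + 1)
  have e6 : 6 * (k + 1) = 6 * k + 5 + 1 := by ring
  have e3 : 3 * (k + 1) = 3 * k + 2 + 1 := by ring
  have e2 : 2 * (k + 1) = 2 * k + 1 + 1 := by ring
  have f6 : (6 * (k + 1))! = (6 * k + 6) * ((6 * k + 5) * ((6 * k + 4) * ((6 * k + 3) *
      ((6 * k + 2) * ((6 * k + 1) * (6 * k)!))))) := by
    rw [e6]; simp only [Nat.factorial_succ]
  have f3 : (3 * (k + 1))! = (3 * k + 3) * ((3 * k + 2) * ((3 * k + 1) * (3 * k)!)) := by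
    rw [e3]; simp only [Nat.factorial_succ]
  have f2 : (2 * (k + 1))! = (2 * k + 2) * ((2 * k + 1) * (2 * k)!) := by
    rw [e2]; simp only [Nat.factorial_succ]
  have f1 : (k + 1)! = (k + 1) * k ! := Nat.factorial_succ k
  rw [f6, f3, f2, f1, ← h0] at h1
  have hpos : 0 < (3 * k)! * ((2 * k)! * k !) * (6 * (3 * k + 2) * (3 * k + 1) * (2 * k + 1)) * (k+1) := by
    positivity
  apply Nat.eq_of_mul_eq_mul_right hpos
  have : (k + 1) ^ 2 * a (k + 1) * ((3 * k)! * ((2 * k)! * k !) *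
      (6 * (3 * k + 2) * (3 * k + 1) * (2 * k + 1)) * (k + 1)) =
      a (k + 1) * ((3 * k + 3) * ((3 * k + 2) * ((3 * k + 1) * (3 * k)!)) *
        ((2 * k + 2) * ((2 * k + 1) * (2 * k)!) * ((k + 1) * k !))) := by ring
  rw [this, h1]
  ring

lemma cb_succ (k : ℕ) : (k + 1) * (2 * (k + 1)).choose (k + 1) =
    2 * (2 * k + 1) * (2 * k).choose k := by
  have := Nat.succ_mul_centralBinom_succ k
  simpa [Nat.centralBinom] using this

lemma c_eq (k : ℕ) : c k = a k * (2 * k).choose k := rfl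

lemma c_succ (k : ℕ) : (k + 1) ^ 3 * c (k + 1) =
    24 * (6 * k + 1) * (6 * k + 5) * (2 * k + 1) * c k := by
  have h1 := a_succ k
  have h2 := cb_succ k
  rw [c_eq, c_eq]
  calc (k + 1) ^ 3 * (a (k + 1) * (2 * (k + 1)).choose (k + 1))
      = ((k + 1) ^ 2 * a (k + 1)) * ((k + 1) * (2 * (k + 1)).choose (k + 1)) := by ring
    _ = _ := by rw [h1, h2]; ring

/-- the self-convolution -/
def S (n : ℕ) : ℕ := ∑ j ∈ range (n + 1), a j * a (n - j)

/-- weighted sums -/
noncomputable def br (p : ℕ → ℕ → ℚ) (n : ℕ) : ℚ :=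
  ∑ x ∈ antidiagonal n, p x.1 x.2 * (a x.1 * a x.2)

lemma S_eq (n : ℕ) : (S n : ℚ) = br (fun _ _ => 1) n := by
  unfold S br
  rw [Finset.Nat.sum_antidiagonal_eq_sum_range_succ (fun i j => (1 : ℚ) * ((a i : ℚ) * a j))]
  push_cast
  simp

lemma br_swap (p : ℕ → ℕ → ℚ) (n : ℕ) : br p n = br (fun j k => p k j) n := by
  unfold br
  rw [← Finset.Nat.sum_antidiagonal_swap]
  apply Finset.sum_congr rfl
  intro x _
  simp only [Prod.fst_swap, Prod.snd_swap]
  ring

lemma br_sq (p : ℕ → ℕ → ℚ) (n : ℕ) : br (fun j k => (j : ℚ) ^ 2 * p j k) (n + 1) =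
    br (fun j k => 12 * (6 * j + 1) * (6 * j + 5) * p (j + 1) k) n := by
  unfold br
  rw [Finset.Nat.sum_antidiagonal_succ]
  simp only [Nat.cast_zero]
  rw [show ((0 : ℚ) ^ 2 * p 0 (n + 1) * (a 0 * a (n + 1))) = 0 by ring, zero_add]
  apply Finset.sum_congr rfl
  rintro ⟨j, k⟩ _
  have h := a_succ j
  have h' : ((j : ℚ) + 1) ^ 2 * a (j + 1) = 12 * (6 * j + 1) * (6 * j + 5) * a j := by
    exact_mod_cast h
  push_cast
  calc ((j : ℚ) + 1) ^ 2 * p (j + 1) k * (a (j + 1) * a k)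
      = (((j : ℚ) + 1) ^ 2 * a (j + 1)) * (p (j + 1) k * a k) := by ring
    _ = _ := by rw [h']; ring

lemma br_congr (p q : ℕ → ℕ → ℚ) (n : ℕ) (h : ∀ j k, j + k = n → p j k = q j k) :
    br p n = br q n := by
  unfold br
  apply Finset.sum_congr rfl
  rintro ⟨j, k⟩ hx
  rw [h j k (by simpa using hx)]

lemma br_add (p q : ℕ → ℕ → ℚ) (n : ℕ) :
    br (fun j k => p j k + q j k) n = br p n + br q n := by
  unfold br
  rw [← Finset.sum_add_distrib]
  apply Finset.sum_congr rfl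
  intro x _
  ring

lemma br_smul (t : ℚ) (p : ℕ → ℕ → ℚ) (n : ℕ) :
    br (fun j k => t * p j k) n = t * br p n := by
  unfold br
  rw [Finset.mul_sum]
  apply Finset.sum_congr rfl
  intro x _
  ring

/-- symmetrisation -/
lemma br_symm (p q : ℕ → ℕ → ℚ) (n : ℕ) (h : ∀ j k, j + k = n → p j k + p k j = 2 * q j k) :
    br p n = br q n := by
  have h1 : br (fun j k => p j k + p k j) n = br p n + br (fun j k => p k j) n := br_add _ _ n
  have h2 := br_swap p n
  have h3 : br (fun j k => p j k + p k j) n = br (fun j k => 2 * q j k) n := br_congr _ _ n h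
  rw [br_smul] at h3
  linarith

lemma br_const (s : ℚ) (n : ℕ) : br (fun _ _ => s) n = s * br (fun _ _ => 1) n := by
  have := br_smul s (fun _ _ => 1) n
  simpa using this

lemma br_lin (s u : ℚ) (n : ℕ) : br (fun j k => s + u * ((j : ℚ) * k)) n =
    s * S n + u * br (fun j k => (j : ℚ) * k) n := by
  rw [S_eq, br_add (fun _ _ => s) (fun j k => u * ((j : ℚ) * k)), br_smul, br_const]

/-- `U n = ∑ j k a_j a_k` -/
noncomputable def U (n : ℕ) : ℚ := br (fun j k => (j : ℚ) * k) n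

lemma rel1 (n : ℕ) : ((n : ℚ) + 1) ^ 3 * S (n + 1) =
    24 * ((18 * (n : ℚ) ^ 3 + 36 * n ^ 2 + 28 * n + 5) * S n + 36 * U n) := by
  have h1 : br (fun j k => (j : ℚ) ^ 2 * (j + 3 * k)) (n + 1) =
      br (fun _ _ => ((n : ℚ) + 1) ^ 3 / 2) (n + 1) := by
    apply br_symm
    intro j k hjk
    have : (n : ℚ) + 1 = j + k := by exact_mod_cast hjk.symm
    rw [this]; ring
  have h2 := br_sq (fun j k => (j : ℚ) + 3 * k) n
  rw [h1] at h2
  have h3 : br (fun j k => 12 * (6 * (j : ℚ) + 1) * (6 * j + 5) * (((j + 1 : ℕ) : ℚ) + 3 * k)) n =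
      br (fun j k => 12 * (18 * (n : ℚ) ^ 3 + 36 * n ^ 2 + 28 * n + 5) +
        (12 * 36) * ((j : ℚ) * k)) n := by
    apply br_symm
    intro j k hjk
    have : (n : ℚ) = j + k := by exact_mod_cast hjk.symm
    rw [this]; push_cast; ring
  rw [h3, br_lin] at h2
  have h4 : br (fun _ _ => ((n : ℚ) + 1) ^ 3 / 2) (n + 1) =
      (((n : ℚ) + 1) ^ 3 / 2) * S (n + 1) := by
    rw [S_eq, br_const]
  rw [h4] at h2
  unfold U
  linarith

lemma rel2 (n : ℕ) : 2 * U (n + 1) = ((n : ℚ) + 1) ^ 2 * S (n + 1) -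
    24 * ((18 * (n : ℚ) ^ 2 + 18 * n + 5) * S n - 36 * U n) := by
  have h1 : br (fun j k => (j : ℚ) ^ 2 * 1) (n + 1) =
      br (fun j k => ((n : ℚ) + 1) ^ 2 / 2 + (-1) * ((j : ℚ) * k)) (n + 1) := by
    apply br_symm
    intro j k hjk
    have : (n : ℚ) + 1 = j + k := by exact_mod_cast hjk.symm
    rw [this]; ring
  have h2 := br_sq (fun _ _ => (1 : ℚ)) n
  rw [h1, br_lin] at h2
  have h3 : br (fun j k => 12 * (6 * (j : ℚ) + 1) * (6 * j + 5) * 1) n =
      br (fun j k => 12 * (18 * (n : ℚ) ^ 2 + 18 * n + 5) + (- (12 * 36)) * ((j : ℚ) * k)) n := by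
    apply br_symm
    intro j k hjk
    have : (n : ℚ) = j + k := by exact_mod_cast hjk.symm
    rw [this]; ring
  rw [h3, br_lin] at h2
  unfold U
  linarith

lemma S_rec (n : ℕ) : ((n : ℚ) + 2) ^ 3 * S (n + 2) =
    24 * (2 * n + 3) * (18 * ((n : ℚ) + 1) ^ 2 + 18 * (n + 1) + 5) * S (n + 1) -
    20736 * ((n : ℚ) + 1) * (9 * ((n : ℚ) + 1) ^ 2 - 4) * S n := by
  have h1 := rel1 (n + 1)
  have h2 := rel2 n
  have h3 := rel1 n
  push_cast at h1 h2 h3 ⊢
  have e : (n : ℚ) + 1 + 1 = n + 2 := by ring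
  rw [e] at h1
  rw [h1]
  linear_combination (24 * 18) * h2 - (432 : ℚ) * h3

/-- the summand of the Clausen type formula -/
def f (n k : ℕ) : ℤ := if k ≤ n then (c k : ℤ) * (k.choose (n - k)) * (-432) ^ (n - k) else 0

/-- the right hand side of the Clausen type formula -/
def R (n : ℕ) : ℤ := ∑ k ∈ range (n + 1), f n k

lemma f_zero {n k : ℕ} (h : n < k) : f n k = 0 := by
  unfold f; rw [if_neg (by omega)]

lemma f_le {n k : ℕ} (h : k ≤ n) : f n k = (c k : ℤ) * (k.choose (n - k)) * (-432) ^ (n - k) := by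
  unfold f; rw [if_pos h]

lemma R_ext (n M : ℕ) (h : n + 1 ≤ M) : R n = ∑ k ∈ range M, f n k := by
  unfold R
  apply Finset.sum_subset
  · intro x hx; simp only [Finset.mem_range] at *; omega
  · intro x _ hx
    simp only [Finset.mem_range] at hx
    exact f_zero (by omega)

/-- the certificate -/
lemma cert (n k : ℕ) : ((n : ℤ) + 2) ^ 3 * f (n + 2) k -
    24 * (2 * n + 3) * (18 * ((n : ℤ) + 1) ^ 2 + 18 * (n + 1) + 5) * f (n + 1) k +
    20736 * ((n : ℤ) + 1) * (9 * ((n : ℤ) + 1) ^ 2 - 4) * f n k =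
    ((n : ℤ) + 2) * ((k : ℤ) ^ 2 * f (n + 2) k - ((k : ℤ) + 1) ^ 2 * f (n + 2) (k + 1)) := by
  rcases le_or_gt k n with hk | hk
  · obtain ⟨i, rfl⟩ := Nat.exists_eq_add_of_le hk
    rw [f_le (by omega : k ≤ k + i + 2), f_le (by omega : k ≤ k + i + 1),
      f_le (by omega : k ≤ k + i), f_le (by omega : k + 1 ≤ k + i + 2)]
    have e2 : k + i + 2 - k = i + 2 := by omega
    have e1 : k + i + 1 - k = i + 1 := by omega
    have e0 : k + i - k = i := by omega
    have e3 : k + i + 2 - (k + 1) = i + 1 := by omega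
    rw [e2, e1, e0, e3]
    have hc : ((k : ℤ) + 1) ^ 3 * c (k + 1) =
        24 * (6 * k + 1) * (6 * k + 5) * (2 * k + 1) * c k := by exact_mod_cast c_succ k
    -- binomials
    have b1 : ((i : ℤ) + 1) * (k.choose (i + 1)) = (k - i) * k.choose i := by
      have := Nat.choose_succ_right_eq k i
      rcases le_or_gt i k with h | h
      · have e : ((k - i : ℕ) : ℤ) = (k : ℤ) - i := by push_cast [h]; ring
        rw [← e]
        have := congrArg (fun x : ℕ => (x : ℤ)) this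
        push_cast at this
        rw [mul_comm]
        rw [this]
        push_cast [h]
        ring
      · rw [Nat.choose_eq_zero_of_lt h, Nat.choose_eq_zero_of_lt (by omega : k < i + 1)]; simp
    have b2 : ((i : ℤ) + 2) * (k.choose (i + 2)) = (k - i - 1) * k.choose (i + 1) := by
      have := Nat.choose_succ_right_eq k (i + 1)
      rcases le_or_gt (i + 1) k with h | h
      · have e : ((k - (i + 1) : ℕ) : ℤ) = (k : ℤ) - i - 1 := by push_cast [h]; ring
        rw [← e]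
        have := congrArg (fun x : ℕ => (x : ℤ)) this
        push_cast at this
        rw [mul_comm]
        have e5 : (i : ℤ) + 2 = i + 1 + 1 := by ring
        rw [e5, this]
        push_cast [h]
        ring
      · rw [Nat.choose_eq_zero_of_lt h, Nat.choose_eq_zero_of_lt (by omega : k < i + 2)]; simp
    have b3 : (((k + 1).choose (i + 1) : ℕ) : ℤ) = k.choose i + k.choose (i + 1) := by
      rw [Nat.choose_succ_succ]; push_cast; ring
    rw [b3]
    have p1 : (-432 : ℤ) ^ (i + 1) = -432 * (-432) ^ i := by ring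
    have p2 : (-432 : ℤ) ^ (i + 2) = 186624 * (-432) ^ i := by ring
    rw [p1, p2]
    have key : (((k : ℤ) + 1) * ((i : ℤ) + 1) * (i + 2)) ≠ 0 := by positivity
    apply mul_left_cancel₀ key
    push_cast
    linear_combination
      ((k : ℤ) + 1) * (i + 1) * 186624 * (-432) ^ i * c k *
        (((k : ℤ) + i + 2) ^ 3 - (k + i + 2) * k ^ 2) * b2 +
      (((k : ℤ) + 1) * 186624 * (-432) ^ i * c k *
        (((k : ℤ) + i + 2) ^ 3 - (k + i + 2) * k ^ 2) * (k - i - 1) +
        (k + 1) * (i + 2) * 24 * 432 * ((2 * (k + i) + 3) *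
          (18 * ((k : ℤ) + i + 1) ^ 2 + 18 * (k + i + 1) + 5)) * c k * (-432) ^ i +
        (k + i + 2) * (-432) * (-432) ^ i * (i + 2) * (k + 1) ^ 3 * c (k + 1)) * b1 +
      ((k : ℤ) + i + 2) * (-432) * (-432) ^ i * (i + 2) * (k + 1) * k.choose i * hc
  · rcases Nat.lt_or_ge (n + 1) k with h1 | h1
    · rcases Nat.lt_or_ge (n + 2) k with h2 | h2
      · rw [f_zero (by omega : n + 2 < k), f_zero (by omega : n + 1 < k), f_zero (by omega : n < k),
          f_zero (by omega : n + 2 < k + 1)]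
        ring
      · have : k = n + 2 := by omega
        subst this
        rw [f_zero (by omega : n + 1 < n + 2), f_zero (by omega : n < n + 2),
          f_zero (by omega : n + 2 < n + 2 + 1)]
        push_cast
        ring
    · have : k = n + 1 := by omega
      subst this
      rw [f_le (by omega : n + 1 ≤ n + 2), f_le (by omega : n + 1 ≤ n + 1), f_zero (by omega : n < n + 1),
        f_le (by omega : n + 1 + 1 ≤ n + 2)]
      have e1 : n + 2 - (n + 1) = 1 := by omega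
      have e2 : n + 1 - (n + 1) = 0 := by omega
      have e3 : n + 2 - (n + 1 + 1) = 0 := by omega
      rw [e1, e2, e3]
      have hc : (((n + 1 : ℕ) : ℤ) + 1) ^ 3 * c (n + 1 + 1) =
        24 * (6 * ((n + 1 : ℕ) : ℤ) + 1) * (6 * ((n + 1 : ℕ) : ℤ) + 5) * (2 * ((n + 1 : ℕ) : ℤ) + 1) * c (n + 1) := by
        exact_mod_cast c_succ (n + 1)
      simp only [Nat.choose_one_right, Nat.choose_zero_right, pow_one, pow_zero]
      push_cast at hc ⊢
      linear_combination hc

lemma R_rec (n : ℕ) : ((n : ℤ) + 2) ^ 3 * R (n + 2) =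
    24 * (2 * n + 3) * (18 * ((n : ℤ) + 1) ^ 2 + 18 * (n + 1) + 5) * R (n + 1) -
    20736 * ((n : ℤ) + 1) * (9 * ((n : ℤ) + 1) ^ 2 - 4) * R n := by
  have h : ∑ k ∈ range (n + 3), (((n : ℤ) + 2) ^ 3 * f (n + 2) k -
    24 * (2 * n + 3) * (18 * ((n : ℤ) + 1) ^ 2 + 18 * (n + 1) + 5) * f (n + 1) k +
    20736 * ((n : ℤ) + 1) * (9 * ((n : ℤ) + 1) ^ 2 - 4) * f n k) =
    ∑ k ∈ range (n + 3), ((n : ℤ) + 2) *
      ((k : ℤ) ^ 2 * f (n + 2) k - ((k + 1 : ℕ) : ℤ) ^ 2 * f (n + 2) (k + 1)) := by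
    apply Finset.sum_congr rfl
    intro k _
    rw [cert]
    push_cast
    ring
  rw [← Finset.mul_sum, Finset.sum_range_sub' (fun k => ((k : ℤ)) ^ 2 * f (n + 2) k),
    f_zero (by omega : n + 2 < n + 3), Finset.sum_add_distrib, Finset.sum_sub_distrib,
    ← Finset.mul_sum, ← Finset.mul_sum, ← Finset.mul_sum, ← R_ext n (n + 3) (by omega),
    ← R_ext (n + 1) (n + 3) (by omega), ← R_ext (n + 2) (n + 3) (by omega)] at h
  simp only [Nat.cast_zero] at h
  linear_combination h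

/-- **Clausen type identity.** -/
theorem S_eq_R (n : ℕ) : (S n : ℤ) = R n := by
  induction n using Nat.strong_induction_on with
  | _ n ih =>
    rcases n with _ | _ | n
    · decide
    · decide
    · have h1 := S_rec n
      have h2 := R_rec n
      have i1 := ih (n + 1) (by omega)
      have i0 := ih n (by omega)
      have h1' : ((n : ℤ) + 2) ^ 3 * S (n + 2) =
        24 * (2 * n + 3) * (18 * ((n : ℤ) + 1) ^ 2 + 18 * (n + 1) + 5) * S (n + 1) -
        20736 * ((n : ℤ) + 1) * (9 * ((n : ℤ) + 1) ^ 2 - 4) * S n := by exact_mod_cast h1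
      rw [i1, i0, ← h2] at h1'
      have hpos : ((n : ℤ) + 2) ^ 3 ≠ 0 := by positivity
      exact mul_left_cancel₀ hpos h1'

end Pool.Agent.U624.Conv
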